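import Pool.Agent.Lib.MP_28303a_al.NK.FPRes

/-! # Polynomials as a monoid algebra of `ℕ` -/

set_option autoImplicit false

namespace Pool.Agent.NegK.WR.H12p

universe u

/-- The polynomial ring as the monoid algebra of `ℕ`. -/
abbrev LP (R : Type u) [Ring R] : Type u := AddMonoidAlgebra R ℕ

namespace LP

variable {R : Type u} [Ring R]

/-- Constants. -/
noncomputable def C : R →+* LP R := AddMonoidAlgebra.singleZeroRingHom

/-- The monomial `t ^ n`. -/
noncomputable def T (n : ℕ) : LP R := AddMonoidAlgebra.single n 1

theorem T_zero : (T 0 : LP R) = 1 := rfl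

theorem T_add (m n : ℕ) : (T (m + n) : LP R) = T m * T n := by
  simp [T, AddMonoidAlgebra.single_mul_single]

theorem single_eq_C_mul_T (r : R) (n : ℕ) :
    (AddMonoidAlgebra.single n r : LP R) = C r * T n := by
  simp [C, T, AddMonoidAlgebra.single_mul_single]

theorem ext {p q : LP R} (h : ∀ a, p.coeff a = q.coeff a) : p = q :=
  AddMonoidAlgebra.ext (Finsupp.ext fun a => h a)

theorem induction_on' {motive : LP R → Prop} (p : LP R)
    (add : ∀ p q, motive p → motive q → motive (p + q))
    (C_mul_T : ∀ (n : ℕ) (a : R), motive (C a * T n)) : motive p := by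
  have h0 : motive 0 := by
    have h := C_mul_T 0 (0 : R)
    rwa [map_zero, zero_mul] at h
  have h1 : ∀ s : Finset ℕ, motive (∑ n ∈ s, (C (p.coeff n) * T n : LP R)) := by
    intro s
    classical
    induction s using Finset.induction_on with
    | empty => rw [Finset.sum_empty]; exact h0
    | insert n s hn ih => rw [Finset.sum_insert hn]; exact add _ _ (C_mul_T _ _) ih
  have h2 : p = ∑ n ∈ p.coeff.support, (C (p.coeff n) * T n : LP R) := by
    conv_lhs => rw [← AddMonoidAlgebra.sum_coeff_single p]
    refine Finset.sum_congr rfl fun n _ => ?_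
    exact single_eq_C_mul_T _ _
  rw [h2]
  exact h1 _

theorem T_mul (n : ℕ) (f : LP R) : T n * f = f * T n := by
  induction f using induction_on' with
  | add p q hp hq => rw [mul_add, add_mul, hp, hq]
  | C_mul_T m a =>
    rw [← single_eq_C_mul_T]
    unfold T
    rw [AddMonoidAlgebra.single_mul_single, AddMonoidAlgebra.single_mul_single, add_comm,
      one_mul, mul_one]

theorem smul_eq_C_mul (r : R) (f : LP R) : r • f = C r * f := by
  induction f using induction_on' with
  | add p q hp hq => rw [smul_add, mul_add, hp, hq]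
  | C_mul_T m a =>
    rw [← mul_assoc, ← map_mul, ← single_eq_C_mul_T, ← single_eq_C_mul_T,
      AddMonoidAlgebra.smul_single, smul_eq_mul]

end LP

end Pool.Agent.NegK.WR.H12p
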