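import Pool.Agent.Lib.MP_28303a_al.WR.H12.PInd

/-! # Polynomials over a noncommutative noetherian ring -/

set_option autoImplicit false

namespace Pool.Agent.NegK.WR.H12p

open LP

universe u

section

variable {R : Type u} [Ring R]

theorem coeff_T_smul (k i : ℕ) (f : LP R) :
    ((T k : LP R) • f).coeff i = if k ≤ i then f.coeff (i - k) else 0 := by
  show ((AddMonoidAlgebra.single k 1 : LP R) * f).coeff i = _
  split_ifs with h
  · obtain ⟨j, rfl⟩ := Nat.exists_eq_add_of_le h
    have h1 : ((AddMonoidAlgebra.single k 1 : LP R) * f).coeff (k + j) = 1 * f.coeff j := by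
      refine f.coeff_single_mul_eq_mul_coeff _ ?_
      intro a _
      exact ⟨fun h => Nat.add_left_cancel h, fun h => h ▸ rfl⟩
    rw [h1, one_mul, Nat.add_sub_cancel_left]
  · refine AddMonoidAlgebra.coeff_single_mul_of_forall_add_ne _ _ ?_
    rintro j rfl
    exact h (Nat.le_add_right _ _)

/-- The coefficients of degree `d` of the elements of `I` supported in `[0, d]`. -/
def lead (I : Submodule (LP R) (LP R)) (d : ℕ) :
    Submodule R R where
  carrier := {r | ∃ f ∈ I, (∀ i : ℕ, d < i → f.coeff i = 0) ∧ f.coeff d = r}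
  zero_mem' := ⟨0, zero_mem _, fun _ _ => rfl, rfl⟩
  add_mem' := by
    rintro _ _ ⟨f, hf, hs, rfl⟩ ⟨g, hg, ht, rfl⟩
    refine ⟨f + g, add_mem hf hg, fun i hi => ?_, rfl⟩
    rw [AddMonoidAlgebra.coeff_add, Finsupp.add_apply, hs i hi, ht i hi, add_zero]
  smul_mem' := by
    rintro r _ ⟨f, hf, hs, rfl⟩
    refine ⟨r • f, ?_, fun i hi => ?_, rfl⟩
    · rw [LP.smul_eq_C_mul]
      exact Submodule.smul_mem _ _ hf
    · rw [AddMonoidAlgebra.coeff_smul_apply, hs i hi, smul_zero]

theorem lead_succ (I : Submodule (LP R) (LP R)) (d : ℕ) :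
    lead I d ≤ lead I (d + 1) := by
  rintro _ ⟨f, hf, hs, rfl⟩
  refine ⟨(T 1 : LP R) • f, Submodule.smul_mem _ _ hf, fun i hi => ?_, ?_⟩
  · rw [coeff_T_smul]
    split_ifs with h
    · exact hs _ (by omega)
    · rfl
  · rw [coeff_T_smul, if_pos (Nat.le_add_left 1 d)]
    congr 1

theorem lead_mono (I : Submodule (LP R) (LP R)) {d e : ℕ}
    (h : d ≤ e) : lead I d ≤ lead I e :=
  monotone_nat_of_le_succ (lead_succ I) h

theorem lead_mono' {I J : Submodule (LP R) (LP R)} (h : I ≤ J)
    (d : ℕ) : lead I d ≤ lead J d := by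
  rintro _ ⟨f, hf, hs, rfl⟩
  exact ⟨f, h hf, hs, rfl⟩

theorem le_of_lead {I J : Submodule (LP R) (LP R)} (h : I ≤ J)
    (hl : ∀ d, lead J d ≤ lead I d) : J ≤ I := by
  have key : ∀ (d : ℕ) (f : LP R), f ∈ J →
      (∀ i : ℕ, d ≤ i → f.coeff i = 0) → f ∈ I := by
    intro d
    induction d with
    | zero =>
      intro f _ hs
      have h0 : f = 0 := by
        refine LP.ext fun i => ?_
        rw [hs i (Nat.zero_le i)]
        rfl
      rw [h0]
      exact zero_mem _
    | succ d ih =>
      intro f hf hs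
      obtain ⟨g, hg, ht, hd⟩ : f.coeff d ∈ lead I d :=
        hl d ⟨f, hf, fun i hi => hs i hi, rfl⟩
      have h1 : f - g ∈ I := by
        refine ih (f - g) (sub_mem hf (h hg)) fun i hi => ?_
        have h2 : (f - g).coeff i = f.coeff i - g.coeff i := rfl
        rw [h2]
        rcases eq_or_lt_of_le hi with hi | hi
        · rw [← hi, hd, sub_self]
        · rw [hs i hi, ht i hi, sub_zero]
      have h3 := add_mem h1 hg
      rwa [sub_add_cancel] at h3
  intro f hf
  refine key (f.coeff.support.sup id + 1) f hf fun i hi => ?_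
  by_contra hne
  have h2 : id i ≤ f.coeff.support.sup id := Finset.le_sup (Finsupp.mem_support_iff.2 hne)
  simp only [id] at h2
  omega

/-- Hilbert's basis theorem for polynomials over a noncommutative ring. -/
theorem poly_noeth (h : IsNoetherian R R) :
    IsNoetherian (LP R) (LP R) := by
  rw [← monotone_stabilizes_iff_noetherian] at h ⊢
  intro f
  obtain ⟨n0, hn0⟩ := h ⟨fun n => lead (f n) n, fun a b hab =>
    (lead_mono _ hab).trans (lead_mono' (f.monotone hab) _)⟩
  have hd : ∀ d, ∃ n, ∀ m, n ≤ m → lead (f n) d = lead (f m) d := fun d =>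
    h ⟨fun n => lead (f n) d, fun a b hab => lead_mono' (f.monotone hab) _⟩
  choose kk hkk using hd
  let K := max n0 ((Finset.range n0).sup kk)
  refine ⟨K, fun m hm => le_antisymm (f.monotone hm) (le_of_lead (f.monotone hm) fun d => ?_)⟩
  rcases lt_or_ge d n0 with hdn | hdn
  · have h1 : kk d ≤ K :=
      le_trans (Finset.le_sup (f := kk) (Finset.mem_range.2 hdn)) (le_max_right _ _)
    rw [← hkk d m (h1.trans hm), hkk d K h1]
  · have h1 : n0 ≤ K := le_max_left _ _
    have h2 : lead (f n0) n0 = lead (f (max d m)) (max d m) :=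
      hn0 (max d m) (hdn.trans (le_max_left _ _))
    calc lead (f m) d ≤ lead (f (max d m)) d := lead_mono' (f.monotone (le_max_right _ _)) _
      _ ≤ lead (f (max d m)) (max d m) := lead_mono _ (le_max_left _ _)
      _ = lead (f n0) n0 := h2.symm
      _ ≤ lead (f K) n0 := lead_mono' (f.monotone h1) _
      _ ≤ lead (f K) d := lead_mono _ hdn

end

end Pool.Agent.NegK.WR.H12p
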